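import Pool.Agent.FGT.Stmts

/-! Squad FGT, row FOE (helper91): Foelner sequences of countable amenable groups. -/

set_option autoImplicit false

namespace Pool.Agent.FGT.H91

open Filter Topology Pool.Agent.FGT Pool.Agent.H22.CIG

universe u

theorem foe : FoeStmt.{u} := by
  classical
  intro G _ hG hF
  obtain ⟨e, he⟩ := exists_surjective_nat G
  choose Ω hne hΩ using fun n : ℕ =>
    hF ((Finset.range (n + 1)).image e) (1 / ((n : ℝ) + 1)) (by positivity)
  refine ⟨Ω, hne, fun h => ?_⟩
  obtain ⟨k, hk⟩ := he h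
  have hub : ∀ᶠ n : ℕ in atTop, prop (Ω n) (fun g => h * g ∉ Ω n) ≤ 1 / ((n : ℝ) + 1) := by
    filter_upwards [eventually_ge_atTop k] with n hn
    have h1 := hΩ n h (Finset.mem_image.2 ⟨k, Finset.mem_range.2 (by omega), hk⟩)
    have h2 : {g : G | g ∈ Ω n ∧ h * g ∉ Ω n} = ((Ω n).filter fun g => h * g ∉ Ω n : Finset G) := by
      ext g
      simp
    rw [h2, Set.ncard_coe_finset] at h1
    rw [prop_eq, div_le_iff₀ (by exact_mod_cast Finset.card_pos.2 (hne n))]
    exact h1
  have hlb : ∀ n : ℕ, 0 ≤ prop (Ω n) (fun g => h * g ∉ Ω n) := by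
    intro n
    rw [prop_eq]
    positivity
  exact tendsto_of_tendsto_of_tendsto_of_le_of_le' tendsto_const_nhds
    tendsto_one_div_add_atTop_nhds_zero_nat (Eventually.of_forall hlb) hub

end Pool.Agent.FGT.H91
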